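import Pool.Agent.Work.MP_65e34f.Basic

/-!
# MP_65e34f_al : block COM (helper83)
-/

namespace Pool.FG.helper83

open Matrix Pool.FG

section

variable {K : Type} [Field K]

lemma com_sc {x : SL K} (h : tr x ^ 2 ≠ 4) : ¬ Sc x := by
  intro hs
  apply h
  rcases hs.tr_eq with e | e <;> rw [e] <;> norm_num

lemma com_det (x : SL K) (u v : K) :
    (u • (1 : M2 K) + v • (x : M2 K)).det = u ^ 2 + u * v * tr x + v ^ 2 := by
  have h := det_eq x
  rw [Matrix.det_fin_two]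
  simp [tr]
  linear_combination v ^ 2 * h

lemma com_inj (x : SL K) (hx : ¬ Sc x) (u v u' v' : K)
    (h : u • (1 : M2 K) + v • (x : M2 K) = u' • (1 : M2 K) + v' • (x : M2 K)) :
    u = u' ∧ v = v' := by
  have e00 := congrArg (fun M : M2 K => M 0 0) h
  have e01 := congrArg (fun M : M2 K => M 0 1) h
  have e10 := congrArg (fun M : M2 K => M 1 0) h
  have e11 := congrArg (fun M : M2 K => M 1 1) h
  simp at e00 e01 e10 e11
  have hv : v = v' := by
    rw [Sc_iff, not_and_or, not_and_or] at hx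
    rcases hx with h1 | h1 | h1
    · rcases e01 with e | e
      · exact e
      · exact absurd e h1
    · rcases e10 with e | e
      · exact e
      · exact absurd e h1
    · have h2 : (v - v') * (x.1 0 0 - x.1 1 1) = 0 := by linear_combination e00 - e11
      rcases mul_eq_zero.1 h2 with h3 | h3
      · exact sub_eq_zero.1 h3
      · exact absurd (sub_eq_zero.1 h3) h1
  refine ⟨?_, hv⟩
  rw [hv] at e00
  exact add_right_cancel e00

variable [Finite K]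

lemma com_T (hJ : Stmt_CNJ) (hN : Stmt_CNC) (x z : SL K) (hx : tr x ^ 2 ≠ 4)
    (hz : tr (x * z) = tr x) :
    Nat.card K ≤ {b : SL K | b * x = x * z * b}.ncard + 3 := by
  have hs1 : ¬ Sc x := com_sc hx
  have hs2 : ¬ Sc (x * z) := com_sc (by rw [hz]; exact hx)
  obtain ⟨g, hg⟩ := (hJ K).1 x (x * z) hs1 hs2 hz.symm
  have hgu : IsUnit (g : M2 K) := g.isUnit
  have hD : (g : M2 K).det ≠ 0 := ((Matrix.isUnit_iff_isUnit_det _).1 hgu).ne_zero
  obtain ⟨D, hDe⟩ : ∃ D, D = (g : M2 K).det := ⟨_, rfl⟩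
  rw [← hDe] at hD
  have hcon := (hN K (-tr x) 0 0 (-D⁻¹)).2 (by
    have h1 : -D⁻¹ * (4 - (-tr x) ^ 2) - 0 ^ 2 - 0 ^ 2 - -tr x * 0 * 0 =
        D⁻¹ * (tr x ^ 2 - 4) := by ring
    rw [h1]
    exact mul_ne_zero (inv_ne_zero hD) (sub_ne_zero.2 hx))
  refine hcon.trans (Nat.add_le_add_right ?_ 3)
  have himg : ((fun b : SL K => (b : M2 K)) '' {b : SL K | b * x = x * z * b}).ncard =
      {b : SL K | b * x = x * z * b}.ncard :=
    Set.ncard_image_of_injective _ Subtype.val_injective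
  rw [← himg]
  apply Set.ncard_le_ncard_of_injOn
    (fun w : K × K => (g : M2 K) * (w.1 • (1 : M2 K) + w.2 • (x : M2 K)))
  · rintro ⟨u, v⟩ hw
    have hw' : u ^ 2 - -tr x * u * v + v ^ 2 + 0 * u + 0 * v + -D⁻¹ = 0 := hw
    have hdet : ((g : M2 K) * (u • (1 : M2 K) + v • (x : M2 K))).det = 1 := by
      rw [Matrix.det_mul, com_det, ← hDe]
      have h1 : u ^ 2 + u * v * tr x + v ^ 2 = D⁻¹ := by linear_combination hw'
      rw [h1, mul_inv_cancel₀ hD]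
    refine ⟨⟨_, hdet⟩, ?_, rfl⟩
    apply Subtype.ext
    show (g : M2 K) * (u • (1 : M2 K) + v • (x : M2 K)) * (x : M2 K) =
      ((x * z : SL K) : M2 K) * ((g : M2 K) * (u • (1 : M2 K) + v • (x : M2 K)))
    have hc : (u • (1 : M2 K) + v • (x : M2 K)) * (x : M2 K) =
        (x : M2 K) * (u • (1 : M2 K) + v • (x : M2 K)) := by
      rw [add_mul, mul_add, smul_mul_assoc, smul_mul_assoc, mul_smul_comm, mul_smul_comm,
        one_mul, mul_one]
    rw [mul_assoc, hc, ← mul_assoc, hg, mul_assoc]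
  · rintro ⟨u, v⟩ _ ⟨u', v'⟩ _ h
    have h1 : u • (1 : M2 K) + v • (x : M2 K) = u' • (1 : M2 K) + v' • (x : M2 K) :=
      hgu.mul_left_cancel h
    obtain ⟨h2, h3⟩ := com_inj x hs1 _ _ _ _ h1
    rw [h2, h3]

lemma com_sq (d : K) : {c : K | c ^ 2 = d}.ncard ≤ 2 := by
  by_cases hne : ({c : K | c ^ 2 = d}).Nonempty
  · obtain ⟨c0, hc0⟩ := hne
    have hs : {c : K | c ^ 2 = d} ⊆ {c0, -c0} := by
      intro c hc
      have hc' : c ^ 2 = d := hc
      have hc0' : c0 ^ 2 = d := hc0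
      have hz : (c - c0) * (c + c0) = 0 := by linear_combination hc' - hc0'
      rcases mul_eq_zero.1 hz with h | h
      · left; exact sub_eq_zero.1 h
      · right; exact eq_neg_of_add_eq_zero_left h
    exact (Set.ncard_le_ncard hs (Set.toFinite _)).trans
      ((Set.ncard_insert_le _ _).trans (by simp))
  · rw [Set.not_nonempty_iff_eq_empty.1 hne]
    simp

lemma com_set (t : K) : Nat.card K ≤ {c : K | c ^ 2 ≠ 4 ∧ c ^ 2 ≠ t + 2}.ncard + 4 := by
  have h1 : (Set.univ : Set K) ⊆ {c : K | c ^ 2 ≠ 4 ∧ c ^ 2 ≠ t + 2} ∪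
      ({c : K | c ^ 2 = 4} ∪ {c : K | c ^ 2 = t + 2}) := by
    intro c _
    by_cases h4 : c ^ 2 = 4
    · exact Or.inr (Or.inl h4)
    · by_cases h5 : c ^ 2 = t + 2
      · exact Or.inr (Or.inr h5)
      · exact Or.inl ⟨h4, h5⟩
  have h2 := Set.ncard_le_ncard h1 (Set.toFinite _)
  rw [Set.ncard_univ] at h2
  have h3 := Set.ncard_union_le {c : K | c ^ 2 ≠ 4 ∧ c ^ 2 ≠ t + 2}
    ({c : K | c ^ 2 = 4} ∪ {c : K | c ^ 2 = t + 2})
  have h4 := Set.ncard_union_le {c : K | c ^ 2 = 4} {c : K | c ^ 2 = t + 2}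
  have h5 := com_sq (4 : K)
  have h6 := com_sq (t + 2 : K)
  omega

end

theorem stmt_COM (hJ : Stmt_CNJ) (hN : Stmt_CNC) (hT : Stmt_TWO) : Stmt_COM := by
  refine ⟨8, 8, ?_⟩
  intro K _ _ hq z hz hz2
  -- the set of the `x`
  obtain ⟨A, hA⟩ : ∃ A : Set (SL K), A = {x : SL K | tr x ^ 2 ≠ 4 ∧ tr x ^ 2 ≠ tr z + 2 ∧
      tr (z * x) = tr x} := ⟨_, rfl⟩
  have hAc : {c : K | c ^ 2 ≠ 4 ∧ c ^ 2 ≠ tr z + 2}.ncard * (Nat.card K - 3) ≤ A.ncard := by
    apply mul_le_ncard_of_fiber (Set.toFinite _) (Set.toFinite _) tr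
    rintro c ⟨hc1, hc2⟩
    have h1 := (hT K z hz c c).2 (by
      intro h
      have h2 : (tr z - 2) * (tr z + 2 - c ^ 2) = 0 := by
        unfold kap at h
        linear_combination h
      rcases mul_eq_zero.1 h2 with h3 | h3
      · exact hz2 (sub_eq_zero.1 h3)
      · exact hc2 (sub_eq_zero.1 h3).symm)
    have h2 : {x : SL K | tr x = c ∧ tr (z * x) = c} ⊆ {x | x ∈ A ∧ tr x = c} := by
      rintro x ⟨h3, h4⟩
      rw [hA]
      refine ⟨⟨by rw [h3]; exact hc1, by rw [h3]; exact hc2, by rw [h4, h3]⟩, h3⟩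
    have h3 := Set.ncard_le_ncard h2 (Set.toFinite _)
    omega
  have hprod : A.ncard * (Nat.card K - 3) ≤
      Set.ncard {w : SL K × SL K | w.1 ∈ A ∧ w.2 ∈ {b : SL K | b * w.1 = w.1 * z * b}} := by
    apply le_ncard_prod (Set.toFinite _) (fun x => {b : SL K | b * x = x * z * b})
      (fun _ _ => Set.toFinite _)
    intro x hx
    rw [hA] at hx
    have h1 := com_T hJ hN x z hx.1 (by rw [tr_mul_comm]; exact hx.2.2)
    omega
  have hinj : Set.ncard {w : SL K × SL K | w.1 ∈ A ∧ w.2 ∈ {b : SL K | b * w.1 = w.1 * z * b}} ≤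
      Set.ncard {w : SL K × SL K | cm w.1 w.2 = z} := by
    apply Set.ncard_le_ncard_of_injOn (fun w : SL K × SL K => (w.1⁻¹, w.2))
    · rintro ⟨x, b⟩ ⟨_, hb⟩
      have hb' : b * x = x * z * b := hb
      show x⁻¹ * b * x⁻¹⁻¹ * b⁻¹ = z
      rw [inv_inv, mul_assoc x⁻¹, hb']
      group
    · rintro ⟨x, b⟩ _ ⟨x', b'⟩ _ h
      simp only [Prod.mk.injEq] at h
      rw [_root_.inv_inj.1 h.1, h.2]
  have hset := com_set (tr z)
  obtain ⟨m, hm⟩ : ∃ m, Nat.card K = m + 8 := ⟨Nat.card K - 8, by omega⟩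
  obtain ⟨n, hn⟩ : ∃ n, n = {c : K | c ^ 2 ≠ 4 ∧ c ^ 2 ≠ tr z + 2}.ncard := ⟨_, rfl⟩
  rw [← hn] at hAc hset
  obtain ⟨X, hX⟩ : ∃ X, X = Set.ncard {w : SL K × SL K | cm w.1 w.2 = z} := ⟨_, rfl⟩
  rw [← hX] at hinj ⊢
  have h1 := (Nat.mul_le_mul_right (Nat.card K - 3) hAc).trans (hprod.trans hinj)
  rw [hm] at h1 hset ⊢
  have e1 : m + 8 - 3 = m + 5 := by omega
  rw [e1] at h1
  have h2 : (m + 4) * (m + 5) * (m + 5) ≤ X :=
    (Nat.mul_le_mul_right _ (Nat.mul_le_mul_right _ (by omega))).trans h1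
  have h3 : (m + 8) ^ 3 ≤ 8 * ((m + 4) * (m + 5) * (m + 5)) := by
    ring_nf
    nlinarith [Nat.zero_le m, Nat.zero_le (m ^ 2), Nat.zero_le (m ^ 3)]
  omega

end Pool.FG.helper83
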