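import Pool.Agent.Work.MP_65e34f.Basic

/-!
# MP_65e34f_al : block LWC (helper83)
-/

namespace Pool.FG.helper83

open Matrix Pool.FG

/-- the general step: from a set of lists to tuples -/
lemma lwc_main (K : Type) [Field K] [Finite K] (ds : List ℕ) (C1 C2 : ℕ)
    (hC : ∀ z : SL K, ¬ Sc z → tr z ≠ 2 →
      Nat.card K ^ 3 ≤ C1 * Set.ncard {w : SL K × SL K | cm w.1 w.2 = z})
    (Y : Set (List (SL K))) (hY : Y ⊆ Xs ds (⊤ : Subgroup (SL K)))
    (hY2 : ∀ xs ∈ Y, ¬ Sc xs.prod ∧ (tr xs.prod ≠ 2 ∨ tr xs.prod ≠ -2))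
    (hcard : Nat.card K ^ (2 * ds.length) ≤ C2 * Y.ncard) :
    Nat.card K ^ (2 * ds.length + 3) ≤
      (C2 * (C1 + 1)) * (Tup .comm ds (⊤ : Subgroup (SL K))).ncard := by
  have hYf : Y.Finite := (Xs_finite ds ⊤).subset hY
  obtain ⟨B, hB⟩ : ∃ B, B = (Nat.card K ^ 3 + C1) / (C1 + 1) := ⟨_, rfl⟩
  have hB1 : Nat.card K ^ 3 ≤ (C1 + 1) * B := by
    have h1 := Nat.div_add_mod (Nat.card K ^ 3 + C1) (C1 + 1)
    have h2 : (Nat.card K ^ 3 + C1) % (C1 + 1) < C1 + 1 := Nat.mod_lt _ (Nat.succ_pos C1)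
    rw [← hB] at h1
    omega
  have hB2 : ∀ n : ℕ, Nat.card K ^ 3 ≤ C1 * n → B ≤ n := by
    intro n hn
    rw [hB, ← Nat.lt_succ_iff]
    apply Nat.div_lt_of_lt_mul
    have h4 : (C1 + 1) * n.succ = C1 * n + n + C1 + 1 := by
      rw [Nat.succ_eq_add_one]
      ring
    rw [h4]
    omega
  -- the pairs
  have hT : ∀ xs ∈ Y, B ≤
      {w : Fin 2 → SL K | Sc (xs.prod * cm (w (0 : Fin 2)) (w (1 : Fin 2)))}.ncard := by
    intro xs hxs
    obtain ⟨h1, h2⟩ := hY2 xs hxs
    obtain ⟨z, hz1, hz2, hz3⟩ : ∃ z : SL K, ¬ Sc z ∧ tr z ≠ 2 ∧ Sc (xs.prod * z) := by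
      rcases h2 with h2 | h2
      · refine ⟨xs.prod⁻¹, ?_, ?_, ?_⟩
        · rw [Sc_inv_iff]
          exact h1
        · rw [tr_inv]
          exact h2
        · rw [mul_inv_cancel]
          exact Sc_one
      · refine ⟨-xs.prod⁻¹, ?_, ?_, ?_⟩
        · rw [Sc_neg_iff, Sc_inv_iff]
          exact h1
        · rw [tr_neg, tr_inv]
          intro h
          exact h2 (by rw [← h, neg_neg])
        · rw [mul_neg, mul_inv_cancel]
          exact Sc_neg_one
    apply hB2
    refine (hC z hz1 hz2).trans (Nat.mul_le_mul_left _ ?_)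
    apply Set.ncard_le_ncard_of_injOn (fun w : SL K × SL K => (![w.1, w.2] : Fin 2 → SL K))
    · rintro ⟨a, b⟩ hab
      have hab' : cm a b = z := hab
      show Sc (xs.prod * cm ((![a, b] : Fin 2 → SL K) 0) ((![a, b] : Fin 2 → SL K) 1))
      rw [Matrix.cons_val_zero, Matrix.cons_val_one, Matrix.cons_val_zero, hab']
      exact hz3
    · rintro ⟨a, b⟩ _ ⟨a', b'⟩ _ h
      have e0 := congrFun h 0
      have e1 := congrFun h 1
      simp at e0 e1
      rw [e0, e1]
  have h1 : Y.ncard * B ≤ Set.ncard {t : List (SL K) × (Fin 2 → SL K) | t.1 ∈ Y ∧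
      t.2 ∈ {w : Fin 2 → SL K | Sc (t.1.prod * cm (w (0 : Fin 2)) (w (1 : Fin 2)))}} :=
    le_ncard_prod hYf (fun xs => {w : Fin 2 → SL K |
      Sc (xs.prod * cm (w (0 : Fin 2)) (w (1 : Fin 2)))}) (fun _ _ => Set.toFinite _) B hT
  have h2 : {t : List (SL K) × (Fin 2 → SL K) | t.1 ∈ Y ∧
      t.2 ∈ {w : Fin 2 → SL K | Sc (t.1.prod * cm (w (0 : Fin 2)) (w (1 : Fin 2)))}} ⊆
      Tup .comm ds (⊤ : Subgroup (SL K)) := by
    rintro ⟨xs, w⟩ ⟨h3, h4⟩
    exact ⟨hY h3, fun _ => Subgroup.mem_top _, h4⟩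
  have h3 := h1.trans (Set.ncard_le_ncard h2 (Tup_finite _ _ _))
  calc Nat.card K ^ (2 * ds.length + 3) = Nat.card K ^ (2 * ds.length) * Nat.card K ^ 3 := by
        rw [pow_add]
    _ ≤ (C2 * Y.ncard) * ((C1 + 1) * B) := Nat.mul_le_mul hcard hB1
    _ = (C2 * (C1 + 1)) * (Y.ncard * B) := by ring
    _ ≤ _ := Nat.mul_le_mul_left _ h3

theorem stmt_LWC (hCOM : Stmt_COM) (hPRO : Stmt_PRO) (hPRT : Stmt_PRT) : Stmt_LWC := by
  intro ds hds
  obtain ⟨C1, N1, h1⟩ := hCOM
  by_cases hlen : ds = []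
  · refine ⟨0, 0, ?_⟩
    intro K _ _ _ _ hcl
    exfalso
    have := hcl.1
    rw [hlen] at this
    simp at this
  obtain ⟨C2, N2, h2⟩ := hPRO ds hlen hds
  obtain ⟨C3, N3, h3⟩ : ∃ C3 N3 : ℕ, 2 ≤ ds.length → ∀ (K : Type) [Field K] [Finite K],
      N3 ≤ Nat.card K → (∀ m ∈ ds, Liv K m) → ∀ S : Set K, S.ncard ≤ 4 →
      Nat.card K ^ (2 * ds.length) ≤
        C3 * Set.ncard {xs | xs ∈ Xs ds (⊤ : Subgroup (SL K)) ∧ ¬ Sc xs.prod ∧
          tr xs.prod ∉ S} := by
    by_cases hd : 2 ≤ ds.length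
    · obtain ⟨C3, N3, h3⟩ := hPRT ds hd hds
      exact ⟨C3, N3, fun _ => h3⟩
    · exact ⟨0, 0, fun h => absurd h hd⟩
  refine ⟨(C2 + C3) * (C1 + 1), N1 + N2 + N3, ?_⟩
  intro K _ _ hN hliv hcl
  have hN1 : N1 ≤ Nat.card K := by omega
  have hN2 : N2 ≤ Nat.card K := by omega
  have hN3 : N3 ≤ Nat.card K := by omega
  have hdim : dimW .comm ds.length = 2 * ds.length + 3 := rfl
  rw [hdim]
  have hpro := h2 K hN2 hliv
  by_cases h2K : (2 : K) = -2
  · -- characteristic two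
    by_cases hd : 2 ≤ ds.length
    · have hprt := h3 hd K hN3 hliv {2} (by rw [Set.ncard_singleton]; norm_num)
      refine (lwc_main K ds C1 (C2 + C3) (h1 K hN1)
        {xs | xs ∈ Xs ds (⊤ : Subgroup (SL K)) ∧ ¬ Sc xs.prod ∧ tr xs.prod ∉ ({2} : Set K)}
        (fun xs hxs => hxs.1) ?_ ?_)
      · intro xs hxs
        refine ⟨hxs.2.1, Or.inl ?_⟩
        intro h
        exact hxs.2.2 h
      · refine hprt.trans (Nat.mul_le_mul_right _ (by omega))
    · -- one period
      obtain ⟨m, rfl⟩ : ∃ m, ds = [m] := by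
        rcases ds with _ | ⟨m, _ | ⟨m', t⟩⟩
        · exact absurd rfl hlen
        · exact ⟨m, rfl⟩
        · simp at hd
      have hchar : ¬ ringChar K ∣ m := by
        intro h
        exact hcl.2 ⟨rfl, m, by simp, h⟩
      have h4 : (4 : K) = 0 := by linear_combination h2K
      have h2z : (2 : K) = 0 := by
        have : (2 : K) * 2 = 0 := by linear_combination h4
        rcases mul_eq_zero.1 this with h | h <;> exact h
      have hodd : m % 2 = 1 := by
        rcases Nat.mod_two_eq_zero_or_one m with h | h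
        · exfalso
          apply hchar
          have h5 : ringChar K ∣ 2 := by
            rw [← ringChar.spec]
            exact_mod_cast h2z
          exact h5.trans (Nat.dvd_of_mod_eq_zero h)
        · exact h
      refine (lwc_main K [m] C1 (C2 + C3) (h1 K hN1)
        {xs | xs ∈ Xs [m] (⊤ : Subgroup (SL K)) ∧ ¬ Sc xs.prod}
        (fun xs hxs => hxs.1) ?_ ?_)
      · intro xs hxs
        refine ⟨hxs.2, Or.inl ?_⟩
        obtain ⟨x, ys, rfl, _, hx, hys⟩ := mem_Xs_cons.mp hxs.1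
        rw [Xs_nil, Set.mem_singleton_iff] at hys
        subst hys
        have hns : ¬ Sc x := by
          have := hxs.2
          simpa using this
        rw [List.prod_singleton]
        intro htr
        rw [h2z] at htr
        -- `x^2 = 1`
        have hx2 : x ^ 2 = 1 := by
          apply Subtype.ext
          rw [Matrix.SpecialLinearGroup.coe_pow, sq, mul_self_eq, htr, zero_smul, zero_sub,
            Matrix.SpecialLinearGroup.coe_one]
          have h6 : (-1 : K) = 1 := by linear_combination -h2z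
          ext i j
          rw [Matrix.neg_apply]
          by_cases hij : i = j
          · rw [hij, Matrix.one_apply_eq, h6]
          · rw [Matrix.one_apply_ne hij, neg_zero]
        obtain ⟨k, hk⟩ : ∃ k, m = 2 * k + 1 := ⟨m / 2, by omega⟩
        apply hns
        have h7 : x ^ m = x := by rw [hk, pow_succ, pow_mul, hx2, one_pow, one_mul]
        rw [h7] at hx
        exact hx
      · refine hpro.trans (Nat.mul_le_mul_right _ (by omega))
  · refine (lwc_main K ds C1 (C2 + C3) (h1 K hN1)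
      {xs | xs ∈ Xs ds (⊤ : Subgroup (SL K)) ∧ ¬ Sc xs.prod}
      (fun xs hxs => hxs.1) ?_ ?_)
    · intro xs hxs
      refine ⟨hxs.2, ?_⟩
      by_contra hcon
      push Not at hcon
      exact h2K (hcon.1.symm.trans hcon.2)
    · refine hpro.trans (Nat.mul_le_mul_right _ (by omega))

end Pool.FG.helper83
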