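import Pool.Agent.Work.MP_65e34f.Basic

/-!
# MP_65e34f_al : block LWZ (helper83)
-/

namespace Pool.FG.helper83

open Matrix Pool.FG

lemma lwz_set (K : Type) [Field K] [Finite K] (a b : K) :
    {t : K | kap t a b = 2}.ncard ≤ 2 := by
  by_cases hne : ({t : K | kap t a b = 2}).Nonempty
  · obtain ⟨t0, ht0⟩ := hne
    have hs : {t : K | kap t a b = 2} ⊆ {t0, a * b - t0} := by
      intro t ht
      have h1 : kap t a b = 2 := ht
      have h2 : kap t0 a b = 2 := ht0
      unfold kap at h1 h2
      have hz : (t - t0) * (t - (a * b - t0)) = 0 := by linear_combination h1 - h2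
      rcases mul_eq_zero.1 hz with h | h
      · left; exact sub_eq_zero.1 h
      · right; exact sub_eq_zero.1 h
    exact (Set.ncard_le_ncard hs (Set.toFinite _)).trans
      ((Set.ncard_insert_le _ _).trans (by simp))
  · rw [Set.not_nonempty_iff_eq_empty.1 hne]
    simp

theorem stmt_LWZ (hPRT : Stmt_PRT) (hT : Stmt_TWO) (hJ : Stmt_CNJ) : Stmt_LWZ := by
  intro ds hds
  rcases ds with _ | ⟨m1, _ | ⟨m2, ds'⟩⟩
  · refine ⟨0, 0, ?_⟩
    intro K _ _ _ _ hcl
    have h : 4 ≤ ([] : List ℕ).length := hcl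
    simp at h
  · refine ⟨0, 0, ?_⟩
    intro K _ _ _ _ hcl
    have h : 4 ≤ [m1].length := hcl
    simp at h
  · by_cases hlen : 2 ≤ ds'.length
    · obtain ⟨C3, N3, h3⟩ := hPRT ds' hlen (fun m hm => hds m (by simp [hm]))
      refine ⟨4 * C3, N3 + 4, ?_⟩
      intro K _ _ hN hliv _
      obtain ⟨x1, hx1, hx1'⟩ := hliv m1 (by simp)
      obtain ⟨x2, hx2, hx2'⟩ := hliv m2 (by simp)
      have hdim : dimW .zero (m1 :: m2 :: ds').length = 2 * ds'.length + 1 := by
        simp only [List.length_cons, dimW]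
        omega
      rw [hdim]
      obtain ⟨S, hS⟩ : ∃ S : Set K, S = {t : K | kap t (tr x1) (tr x2) = 2} := ⟨_, rfl⟩
      have hS2 : S.ncard ≤ 4 := by
        rw [hS]
        exact (lwz_set K _ _).trans (by norm_num)
      have h4 := h3 K (by omega) (fun m hm => hliv m (by simp [hm])) S hS2
      obtain ⟨Y, hY⟩ : ∃ Y, Y = {xs | xs ∈ Xs ds' (⊤ : Subgroup (SL K)) ∧ ¬ Sc xs.prod ∧
        tr xs.prod ∉ S} := ⟨_, rfl⟩
      rw [← hY] at h4
      have hYf : Y.Finite := by
        rw [hY]
        exact (Xs_finite ds' ⊤).subset fun xs hxs => hxs.1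
      have h5 : Y.ncard * (Nat.card K - 3) ≤ Set.ncard {t : List (SL K) × SL K | t.1 ∈ Y ∧
          t.2 ∈ {x : SL K | tr x = tr x1 ∧ tr (t.1.prod * x) = tr x2}} := by
        apply le_ncard_prod hYf
          (fun ys => {x : SL K | tr x = tr x1 ∧ tr (ys.prod * x) = tr x2})
          (fun _ _ => Set.toFinite _)
        intro ys hys
        rw [hY] at hys
        have h6 := (hT K ys.prod hys.2.1 (tr x1) (tr x2)).2 (by
          intro h
          apply hys.2.2
          rw [hS]
          exact h)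
        omega
      have h6 : Set.ncard {t : List (SL K) × SL K | t.1 ∈ Y ∧
          t.2 ∈ {x : SL K | tr x = tr x1 ∧ tr (t.1.prod * x) = tr x2}} ≤
          (Tup .zero (m1 :: m2 :: ds') (⊤ : Subgroup (SL K))).ncard := by
        apply Set.ncard_le_ncard_of_injOn
          (fun t : List (SL K) × SL K => ((t.2 :: (t.1.prod * t.2)⁻¹ :: t.1,
            fun i => Fin.elim0 i) : List (SL K) × (Fin 0 → SL K)))
          (ht := Tup_finite _ _ _)
        · rintro ⟨ys, x⟩ ⟨hys, hx, hyx⟩
          have hys' : ys ∈ Xs ds' (⊤ : Subgroup (SL K)) := by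
            have h7 : ys ∈ Y := hys
            rw [hY] at h7
            exact h7.1
          refine ⟨?_, fun j => Fin.elim0 j, ?_⟩
          · show x :: (ys.prod * x)⁻¹ :: ys ∈ Xs (m1 :: m2 :: ds') (⊤ : Subgroup (SL K))
            rw [cons_mem_Xs, cons_mem_Xs]
            refine ⟨Subgroup.mem_top _, (hJ K).2 x1 x m1 hx1 hx1' hx, Subgroup.mem_top _,
              (hJ K).2 x2 _ m2 hx2 hx2' ?_, hys'⟩
            rw [tr_inv]
            exact hyx
          · show Sc (x :: (ys.prod * x)⁻¹ :: ys).prod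
            rw [List.prod_cons, List.prod_cons]
            have h8 : x * ((ys.prod * x)⁻¹ * ys.prod) = 1 := by group
            rw [h8]
            exact Sc_one
        · rintro ⟨ys, x⟩ _ ⟨ys', x'⟩ _ h
          simp only [Prod.mk.injEq, List.cons.injEq] at h
          rw [h.1.1, h.1.2.2]
      have h7 := h5.trans h6
      have h8 : Nat.card K ≤ 4 * (Nat.card K - 3) := by omega
      calc Nat.card K ^ (2 * ds'.length + 1) = Nat.card K ^ (2 * ds'.length) * Nat.card K := by
            rw [pow_succ]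
        _ ≤ (C3 * Y.ncard) * (4 * (Nat.card K - 3)) := Nat.mul_le_mul h4 h8
        _ = 4 * C3 * (Y.ncard * (Nat.card K - 3)) := by ring
        _ ≤ _ := Nat.mul_le_mul_left _ h7
    · refine ⟨0, 0, ?_⟩
      intro K _ _ _ _ hcl
      have h : 4 ≤ (m1 :: m2 :: ds').length := hcl
      simp only [List.length_cons] at h
      omega

end Pool.FG.helper83
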