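import Pool.Agent.Work.MP_65e34f.Basic

/-!
# MP_65e34f_al : block ROS (helper83)
-/

namespace Pool.FG.helper83

open Matrix Pool.FG

section

variable {K : Type} [Field K]

lemma ros_det (x : SL K) (u v : K) :
    (u • (1 : M2 K) + v • (x : M2 K)).det = u ^ 2 + u * v * tr x + v ^ 2 := by
  have h := det_eq x
  rw [Matrix.det_fin_two]
  simp [tr]
  linear_combination v ^ 2 * h

/-- the commutant of a nonscalar matrix -/
lemma ros_comm (a y : SL K) (ha : ¬ Sc a) (h : (y : M2 K) * (a : M2 K) = (a : M2 K) * (y : M2 K)) :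
    ∃ u v : K, (y : M2 K) = u • (1 : M2 K) + v • (a : M2 K) := by
  have e00 := congrArg (fun M : M2 K => M 0 0) h
  have e01 := congrArg (fun M : M2 K => M 0 1) h
  have e10 := congrArg (fun M : M2 K => M 1 0) h
  simp only [Matrix.mul_apply, Fin.sum_univ_two] at e00 e01 e10
  have hfin : ∀ u v : K, y.1 0 0 = u + v * a.1 0 0 → y.1 0 1 = v * a.1 0 1 →
      y.1 1 0 = v * a.1 1 0 → y.1 1 1 = u + v * a.1 1 1 →
      (y : M2 K) = u • (1 : M2 K) + v • (a : M2 K) := by
    intro u v h1 h2 h3 h4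
    ext i j
    fin_cases i <;> fin_cases j
    · simpa using h1
    · simpa using h2
    · simpa using h3
    · simpa using h4
  rw [Sc_iff, not_and_or, not_and_or] at ha
  rcases ha with hB | hC | hD
  · refine ⟨y.1 0 0 - y.1 0 1 / a.1 0 1 * a.1 0 0, y.1 0 1 / a.1 0 1, hfin _ _ ?_ ?_ ?_ ?_⟩
    · ring
    · field_simp
    · field_simp
      linear_combination -e00
    · field_simp
      linear_combination -e01
  · refine ⟨y.1 0 0 - y.1 1 0 / a.1 1 0 * a.1 0 0, y.1 1 0 / a.1 1 0, hfin _ _ ?_ ?_ ?_ ?_⟩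
    · ring
    · field_simp
      linear_combination e00
    · field_simp
    · field_simp
      linear_combination e10
  · by_cases hB : a.1 0 1 = 0
    · by_cases hC : a.1 1 0 = 0
      · have hne : a.1 0 0 - a.1 1 1 ≠ 0 := sub_ne_zero.2 hD
        have h01 : y.1 0 1 = 0 := by
          have h1 : y.1 0 1 * (a.1 0 0 - a.1 1 1) = 0 := by
            rw [hB] at e01
            linear_combination -e01
          rcases mul_eq_zero.1 h1 with h2 | h2
          · exact h2
          · exact absurd h2 hne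
        have h10 : y.1 1 0 = 0 := by
          have h1 : y.1 1 0 * (a.1 0 0 - a.1 1 1) = 0 := by
            rw [hC] at e10
            linear_combination e10
          rcases mul_eq_zero.1 h1 with h2 | h2
          · exact h2
          · exact absurd h2 hne
        refine ⟨y.1 0 0 - (y.1 0 0 - y.1 1 1) / (a.1 0 0 - a.1 1 1) * a.1 0 0,
          (y.1 0 0 - y.1 1 1) / (a.1 0 0 - a.1 1 1), hfin _ _ ?_ ?_ ?_ ?_⟩
        · ring
        · rw [hB, h01, mul_zero]
        · rw [hC, h10, mul_zero]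
        · field_simp
          ring
      · refine ⟨y.1 0 0 - y.1 1 0 / a.1 1 0 * a.1 0 0, y.1 1 0 / a.1 1 0, hfin _ _ ?_ ?_ ?_ ?_⟩
        · ring
        · field_simp
          linear_combination e00
        · field_simp
        · field_simp
          linear_combination e10
    · refine ⟨y.1 0 0 - y.1 0 1 / a.1 0 1 * a.1 0 0, y.1 0 1 / a.1 0 1, hfin _ _ ?_ ?_ ?_ ?_⟩
      · ring
      · field_simp
      · field_simp
        linear_combination -e00
      · field_simp
        linear_combination -e01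

end

theorem stmt_ROS (hTRC : Stmt_TRC) (hCRD : Stmt_CRD) (hN : Stmt_CNC) (hT : Stmt_TWO) :
    Stmt_ROS := by
  intro K _ _
  have hq := two_le_card (K := K)
  obtain ⟨q, hqe⟩ : ∃ q, q = Nat.card K := ⟨_, rfl⟩
  rw [← hqe] at hq ⊢
  refine ⟨?_, ?_, ?_, ?_, ?_⟩
  · rw [Subgroup.card_top, hCRD K, ← hqe]
    calc q * (q ^ 2 - 1) ≤ q * q ^ 2 := Nat.mul_le_mul_left _ (Nat.sub_le _ _)
      _ = q ^ 3 := by ring
      _ ≤ 100 * q ^ 3 := by omega
  · intro τ
    have h1 := (hTRC K 1 τ one_ne_zero).2.2.2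
    rw [← hqe] at h1
    have h2 : {x : SL K | x ∈ (⊤ : Subgroup (SL K)) ∧ tr x = τ} ⊆ {x : SL K | tr x = τ} :=
      fun x hx => hx.2
    have h3 := Set.ncard_le_ncard h2 (Set.toFinite _)
    nlinarith
  · intro a _ ha τ t
    have h1 := (hT K a ha τ t).1
    rw [← hqe] at h1
    have h2 : {x : SL K | x ∈ (⊤ : Subgroup (SL K)) ∧ tr x = τ ∧ tr (a * x) = t} ⊆
        {x : SL K | tr x = τ ∧ tr (a * x) = t} := fun x hx => hx.2
    have h3 := Set.ncard_le_ncard h2 (Set.toFinite _)
    omega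
  · intro a _ ha c _
    by_cases hne : {b : SL K | b ∈ (⊤ : Subgroup (SL K)) ∧ b * a = c * b}.Nonempty
    · obtain ⟨b0, _, hb0⟩ := hne
      have h1 := (hN K (-tr a) 0 0 (-1)).1
      rw [← hqe] at h1
      have himg : ((fun b : SL K => (b : M2 K)) ''
          {b : SL K | b ∈ (⊤ : Subgroup (SL K)) ∧ b * a = c * b}).ncard =
          {b : SL K | b ∈ (⊤ : Subgroup (SL K)) ∧ b * a = c * b}.ncard :=
        Set.ncard_image_of_injective _ Subtype.val_injective
      rw [← himg]
      have hsub : (fun b : SL K => (b : M2 K)) ''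
          {b : SL K | b ∈ (⊤ : Subgroup (SL K)) ∧ b * a = c * b} ⊆
          (fun w : K × K => (b0 : M2 K) * (w.1 • (1 : M2 K) + w.2 • (a : M2 K))) ''
          {w : K × K | w.1 ^ 2 - -tr a * w.1 * w.2 + w.2 ^ 2 + 0 * w.1 + 0 * w.2 + -1 = 0} := by
        rintro _ ⟨b, ⟨_, hb⟩, rfl⟩
        have hy : b0⁻¹ * b * a = a * (b0⁻¹ * b) := by
          have e1 : c = b0 * a * b0⁻¹ := by rw [hb0]; group
          rw [mul_assoc, hb, e1]
          group
        obtain ⟨u, v, huv⟩ := ros_comm a (b0⁻¹ * b) ha (by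
          rw [← Matrix.SpecialLinearGroup.coe_mul, hy, Matrix.SpecialLinearGroup.coe_mul])
        refine ⟨(u, v), ?_, ?_⟩
        · have h2 : (u • (1 : M2 K) + v • (a : M2 K)).det = 1 := by
            rw [← huv]
            exact (b0⁻¹ * b).2
          rw [ros_det] at h2
          show u ^ 2 - -tr a * u * v + v ^ 2 + 0 * u + 0 * v + -1 = 0
          linear_combination h2
        · show (b0 : M2 K) * (u • (1 : M2 K) + v • (a : M2 K)) = (b : M2 K)
          rw [← huv, ← Matrix.SpecialLinearGroup.coe_mul, mul_inv_cancel_left]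
      have h2 := Set.ncard_le_ncard hsub (Set.toFinite _)
      have h3 := Set.ncard_image_le (f := fun w : K × K => (b0 : M2 K) *
        (w.1 • (1 : M2 K) + w.2 • (a : M2 K))) (s := {w : K × K | w.1 ^ 2 - -tr a * w.1 * w.2 +
          w.2 ^ 2 + 0 * w.1 + 0 * w.2 + -1 = 0}) (Set.toFinite _)
      omega
    · rw [Set.not_nonempty_iff_eq_empty.1 hne, Set.ncard_empty]
      omega
  · intro z _ hz
    have h1 : {a : SL K | a ∈ (⊤ : Subgroup (SL K)) ∧ tr (a⁻¹ * z) = tr a}.ncard ≤
        (Set.univ : Set K).ncard * (2 * q) := by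
      apply ncard_le_mul_of_fiber (Set.toFinite _) (Set.toFinite _) tr (fun _ _ => Set.mem_univ _)
      intro τ _
      have h2 := (hT K z hz τ (τ * (tr z - 1))).1
      rw [← hqe] at h2
      have h3 : {a | a ∈ {a : SL K | a ∈ (⊤ : Subgroup (SL K)) ∧ tr (a⁻¹ * z) = tr a} ∧
          tr a = τ} ⊆ {x : SL K | tr x = τ ∧ tr (z * x) = τ * (tr z - 1)} := by
        rintro a ⟨⟨_, ha⟩, hτ⟩
        refine ⟨hτ, ?_⟩
        rw [tr_inv_mul, hτ] at ha
        rw [tr_mul_comm]
        linear_combination -ha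
      exact (Set.ncard_le_ncard h3 (Set.toFinite _)).trans h2
    rw [Set.ncard_univ, ← hqe] at h1
    nlinarith

end Pool.FG.helper83
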