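import Pool.Agent.Work.MP_65e34f.Basic

/-!
# MP_65e34f_al : block TBO (helper83)
-/

namespace Pool.FG.helper83

open Matrix Pool.FG

section

variable {K : Type} [Field K]

lemma tbo_det (x : SL K) (u v : K) :
    (u • (1 : M2 K) + v • (x : M2 K)).det = u ^ 2 + u * v * tr x + v ^ 2 := by
  have h := det_eq x
  rw [Matrix.det_fin_two]
  simp [tr]
  linear_combination v ^ 2 * h

/-- eigenvalues and the trace -/
lemma tbo_eig (x : SL K) (α : K) (hα : α ≠ 0) :
    (∃ v : Fin 2 → K, v ≠ 0 ∧ (x : M2 K).mulVec v = α • v) ↔ tr x = α + α⁻¹ := by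
  have h1 : (∃ v : Fin 2 → K, v ≠ 0 ∧ (x : M2 K).mulVec v = α • v) ↔
      ∃ v : Fin 2 → K, v ≠ 0 ∧ ((-α) • (1 : M2 K) + (1 : K) • (x : M2 K)).mulVec v = 0 := by
    constructor
    · rintro ⟨v, hv, h⟩
      refine ⟨v, hv, ?_⟩
      rw [Matrix.add_mulVec, Matrix.smul_mulVec, Matrix.one_mulVec, one_smul, h, neg_smul,
        neg_add_cancel]
    · rintro ⟨v, hv, h⟩
      refine ⟨v, hv, ?_⟩
      rw [Matrix.add_mulVec, Matrix.smul_mulVec, Matrix.one_mulVec, one_smul, neg_smul] at h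
      exact (eq_of_neg_add_eq_zero h).symm
  rw [h1, Matrix.exists_mulVec_eq_zero_iff, tbo_det]
  constructor
  · intro h
    field_simp
    linear_combination -h
  · intro h
    rw [h]
    field_simp
    ring

lemma tbo_order {α : K} {N : ℕ} (hN : N % 2 = 1) (h : α ^ N = 1) (h1 : α ≠ 1) :
    α ^ 2 ≠ 1 := by
  intro h2
  apply h1
  obtain ⟨k, hk⟩ : ∃ k, N = 2 * k + 1 := ⟨N / 2, by omega⟩
  rw [hk, pow_succ, pow_mul, h2, one_pow, one_mul] at h
  exact h

/-- power conditions from the trace -/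
lemma tbo_pow (hJ : Stmt_CNJ) (x : SL K) (α : K) (m : ℕ) (hα : α ≠ 0) (h2 : α ^ 2 ≠ 1)
    (hm : α ^ m = 1) (htr : tr x = α + α⁻¹) : Sc (x ^ m) := by
  have hdet : (!![α, 0; 0, α⁻¹] : M2 K).det = 1 := by
    rw [Matrix.det_fin_two_of]
    field_simp
    simp
  obtain ⟨y, hy⟩ : ∃ y : SL K, (y : M2 K) = !![α, 0; 0, α⁻¹] := ⟨⟨_, hdet⟩, rfl⟩
  have hyt : tr y = α + α⁻¹ := by
    unfold tr
    rw [hy]
    simp
  have hys : ¬ Sc y := by
    rw [Sc_iff]
    rintro ⟨_, _, h⟩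
    rw [hy] at h
    simp at h
    apply h2
    field_simp at h
    exact h
  have hpow : ∀ n : ℕ, ((y ^ n : SL K) : M2 K) = !![α ^ n, 0; 0, α⁻¹ ^ n] := by
    intro n
    induction n with
    | zero =>
      rw [pow_zero, Matrix.SpecialLinearGroup.coe_one, pow_zero, pow_zero, Matrix.one_fin_two]
    | succ n ih =>
      rw [pow_succ, Matrix.SpecialLinearGroup.coe_mul, ih, hy]
      ext i j
      fin_cases i <;> fin_cases j <;> simp [Matrix.mul_apply, pow_succ]
  apply (hJ K).2 y x m hys _ (by rw [htr, hyt])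
  left
  apply Subtype.ext
  rw [hpow, hm, inv_pow, hm, inv_one, Matrix.SpecialLinearGroup.coe_one, Matrix.one_fin_two]

/-- many elements with a given eigenvector -/
lemma tbo_many [Finite K] (v : Fin 2 → K) (hv : v ≠ 0) (α : K) (hα : α ≠ 0) :
    Nat.card K ≤ {x : SL K | (x : M2 K).mulVec v = α • v}.ncard := by
  obtain ⟨f, hf⟩ : ∃ f : Fin 2 → K, f 0 * v 0 + f 1 * v 1 = α - α⁻¹ := by
    by_cases h0 : v 0 = 0
    · have h1 : v 1 ≠ 0 := by
        intro h1
        apply hv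
        ext i
        fin_cases i
        · exact h0
        · exact h1
      refine ⟨![0, (α - α⁻¹) / v 1], ?_⟩
      simp
      field_simp
    · refine ⟨![(α - α⁻¹) / v 0, 0], ?_⟩
      simp
      field_simp
  -- `x_s = α⁻¹ + v (f + s (-v1, v0))`
  have hdet : ∀ s : K, (!![α⁻¹ + v 0 * (f 0 - s * v 1), v 0 * (f 1 + s * v 0);
      v 1 * (f 0 - s * v 1), α⁻¹ + v 1 * (f 1 + s * v 0)] : M2 K).det = 1 := by
    intro s
    rw [Matrix.det_fin_two_of]
    have h1 : α⁻¹ * α = 1 := inv_mul_cancel₀ hα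
    linear_combination α⁻¹ * hf + h1
  have h1 : (Set.univ : Set K).ncard ≤ {x : SL K | (x : M2 K).mulVec v = α • v}.ncard := by
    apply Set.ncard_le_ncard_of_injOn (fun s : K => (⟨_, hdet s⟩ : SL K))
    · intro s _
      show (!![α⁻¹ + v 0 * (f 0 - s * v 1), v 0 * (f 1 + s * v 0);
        v 1 * (f 0 - s * v 1), α⁻¹ + v 1 * (f 1 + s * v 0)] : M2 K).mulVec v = α • v
      ext i
      fin_cases i
      · simp [Matrix.mulVec, dotProduct, Fin.sum_univ_two]
        linear_combination v 0 * hf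
      · simp [Matrix.mulVec, dotProduct, Fin.sum_univ_two]
        linear_combination v 1 * hf
    · intro s _ t _ h
      have h2 := congrArg (fun x : SL K => (x : M2 K)) h
      have e01 := congrArg (fun M : M2 K => M 0 1) h2
      have e10 := congrArg (fun M : M2 K => M 1 0) h2
      simp at e01 e10
      by_cases h0 : v 0 = 0
      · have h1 : v 1 ≠ 0 := by
          intro h1
          apply hv
          ext i
          fin_cases i
          · exact h0
          · exact h1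
        rcases e10 with e | e
        · exact e
        · exact absurd e h1
      · rcases e01 with e | e
        · exact e
        · exact absurd e h0
  rw [Set.ncard_univ] at h1
  exact h1

lemma tbo_top (v : Fin 2 → K) (hv : v ≠ 0) : Bor v hv ≠ ⊤ := by
  intro h
  obtain ⟨x, hx⟩ : ∃ x : SL K, (x : M2 K) = !![1, 1; 0, 1] :=
    ⟨⟨!![1, 1; 0, 1], by rw [Matrix.det_fin_two_of]; ring⟩, rfl⟩
  obtain ⟨y, hy⟩ : ∃ y : SL K, (y : M2 K) = !![1, 0; 1, 1] :=
    ⟨⟨!![1, 0; 1, 1], by rw [Matrix.det_fin_two_of]; ring⟩, rfl⟩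
  have h1 : x ∈ Bor v hv := by rw [h]; exact Subgroup.mem_top _
  have h2 : y ∈ Bor v hv := by rw [h]; exact Subgroup.mem_top _
  obtain ⟨c, hc⟩ := h1
  obtain ⟨d, hd⟩ := h2
  rw [hx] at hc
  rw [hy] at hd
  have c0 := congrFun hc 0
  have c1 := congrFun hc 1
  have d0 := congrFun hd 0
  have d1 := congrFun hd 1
  simp [Matrix.mulVec, dotProduct, Fin.sum_univ_two] at c0 c1 d0 d1
  apply hv
  by_cases hv1 : v 1 = 0
  · have hv0 : v 0 = 0 := by
      rw [hv1, mul_zero, add_zero] at d1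
      exact d1
    ext i
    fin_cases i
    · exact hv0
    · exact hv1
  · exfalso
    have hc1 : c = 1 := by
      have h3 : (c - 1) * v 1 = 0 := by linear_combination -c1
      rcases mul_eq_zero.1 h3 with h4 | h4
      · exact sub_eq_zero.1 h4
      · exact absurd h4 hv1
    apply hv1
    rw [hc1] at c0
    linear_combination c0

end

/-- a common prime factor, odd -/
lemma tbo_prime (K : Type) [Field K] [Finite K] (m1 m2 : ℕ) (hev : ¬ (Even m1 ∧ Even m2))
    (h : Nat.gcd (Nat.gcd m1 m2) (Nat.card K - 1) ≠ 1) :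
    ∃ l : ℕ, l.Prime ∧ l % 2 = 1 ∧ l ∣ m1 ∧ l ∣ m2 ∧ ∃ α : Kˣ, orderOf α = l := by
  obtain ⟨l, hl, hd⟩ := Nat.exists_prime_and_dvd h
  have h1 : l ∣ Nat.gcd m1 m2 := hd.trans (Nat.gcd_dvd_left _ _)
  have h2 : l ∣ Nat.card K - 1 := hd.trans (Nat.gcd_dvd_right _ _)
  have h3 : l ∣ m1 := h1.trans (Nat.gcd_dvd_left _ _)
  have h4 : l ∣ m2 := h1.trans (Nat.gcd_dvd_right _ _)
  refine ⟨l, hl, ?_, h3, h4, ?_⟩
  · rcases hl.eq_two_or_odd with h5 | h5
    · exfalso
      rw [h5] at h3 h4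
      exact hev ⟨even_iff_two_dvd.2 h3, even_iff_two_dvd.2 h4⟩
    · exact h5
  · have : Fact l.Prime := ⟨hl⟩
    have h5 : l ∣ Nat.card Kˣ := by
      rw [Nat.card_units]
      exact h2
    exact exists_prime_orderOf_dvd_card' l h5

theorem stmt_TBO (hTRC : Stmt_TRC) (hJ : Stmt_CNJ) : Stmt_TBO := by
  refine ⟨2, 0, ?_⟩
  intro K _ _ m1 m2 m3 _ _ e12 e13 _ g12 g13
  have hq := two_le_card (K := K)
  obtain ⟨l, hl, hlo, hl1, hl2, α, hα⟩ := tbo_prime K m1 m2 e12 g12
  obtain ⟨l', hl', hlo', hl1', hl3, β0, hβ0⟩ := tbo_prime K m1 m3 e13 g13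
  -- choose `β` with `α β ≠ 1`
  obtain ⟨β, hβ, hαβ⟩ : ∃ β : Kˣ, orderOf β = l' ∧ α * β ≠ 1 := by
    by_cases h : α * β0 = 1
    · refine ⟨β0⁻¹, by rw [orderOf_inv, hβ0], ?_⟩
      intro h2
      have h3 : β0 * β0 = 1 := by
        have h4 : α = β0 := by
          have := congrArg (fun z => z * β0) h2
          simpa [mul_assoc] using this
        rw [← h4] at h ⊢
        exact h
      have h5 : orderOf β0 ∣ 2 := orderOf_dvd_of_pow_eq_one (by rw [sq, h3])
      rw [hβ0] at h5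
      have := (Nat.prime_dvd_prime_iff_eq hl' Nat.prime_two).1 h5
      omega
    · exact ⟨β0, hβ0, h⟩
  obtain ⟨a, ha⟩ : ∃ a : K, a = (α : K) := ⟨_, rfl⟩
  obtain ⟨b, hb⟩ : ∃ b : K, b = (β : K) := ⟨_, rfl⟩
  have ha0 : a ≠ 0 := by rw [ha]; exact α.ne_zero
  have hb0 : b ≠ 0 := by rw [hb]; exact β.ne_zero
  have hal : a ^ l = 1 := by
    rw [ha, ← Units.val_pow_eq_pow_val, ← hα, pow_orderOf_eq_one, Units.val_one]
  have hbl : b ^ l' = 1 := by
    rw [hb, ← Units.val_pow_eq_pow_val, ← hβ, pow_orderOf_eq_one, Units.val_one]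
  have ha1 : a ≠ 1 := by
    intro h
    rw [ha, Units.val_eq_one] at h
    rw [h, orderOf_one] at hα
    exact hl.one_lt.ne hα
  have hb1 : b ≠ 1 := by
    intro h
    rw [hb, Units.val_eq_one] at h
    rw [h, orderOf_one] at hβ
    exact hl'.one_lt.ne hβ
  have hab1 : a * b ≠ 1 := by
    intro h
    apply hαβ
    rw [ha, hb, ← Units.val_mul, Units.val_eq_one] at h
    exact h
  have ha2 := tbo_order hlo hal ha1
  have hb2 := tbo_order hlo' hbl hb1
  have hab2 : (a * b) ^ 2 ≠ 1 := by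
    apply tbo_order (N := l * l') (by rw [Nat.mul_mod, hlo, hlo']) _ hab1
    rw [mul_pow, pow_mul, hal, one_pow, one_mul, mul_comm l, pow_mul, hbl, one_pow]
  have hpow : ∀ (c : K) (k m : ℕ), c ^ k = 1 → k ∣ m → c ^ m = 1 := by
    rintro c k _ hc ⟨n, rfl⟩
    rw [pow_mul, hc, one_pow]
  have ham := hpow a l m2 hal hl2
  have hbm := hpow b l' m3 hbl hl3
  have habm : (a * b) ^ m1 = 1 := by
    rw [mul_pow, hpow a l m1 hal hl1, hpow b l' m1 hbl hl1', one_mul]
  -- the eigenvector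
  have hex : ∀ x : SL K, ∃ v : Fin 2 → K, v ≠ 0 ∧
      (tr x = a + a⁻¹ → (x : M2 K).mulVec v = a • v) := by
    intro x
    by_cases h : tr x = a + a⁻¹
    · obtain ⟨v, hv, hv'⟩ := (tbo_eig x a ha0).2 h
      exact ⟨v, hv, fun _ => hv'⟩
    · refine ⟨![1, 0], ?_, fun h2 => absurd h2 h⟩
      intro h2
      have := congrFun h2 0
      simp at this
  choose v hv hv' using hex
  have h1 : {x : SL K | tr x = a + a⁻¹}.ncard * Nat.card K ≤
      Set.ncard {w : SL K × SL K | w.1 ∈ {x : SL K | tr x = a + a⁻¹} ∧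
        w.2 ∈ {y : SL K | (y : M2 K).mulVec (v w.1) = b • v w.1}} :=
    le_ncard_prod (Set.toFinite _) (fun x => {y : SL K | (y : M2 K).mulVec (v x) = b • v x})
      (fun _ _ => Set.toFinite _) _ (fun x _ => tbo_many (v x) (hv x) b hb0)
  have h2 : Set.ncard {w : SL K × SL K | w.1 ∈ {x : SL K | tr x = a + a⁻¹} ∧
        w.2 ∈ {y : SL K | (y : M2 K).mulVec (v w.1) = b • v w.1}} ≤
      (Bad .zero [m1, m2, m3] K).ncard := by
    apply Set.ncard_le_ncard_of_injOn
      (fun w : SL K × SL K => (([(w.1 * w.2)⁻¹, w.1, w.2], fun i => Fin.elim0 i) :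
        List (SL K) × (Fin 0 → SL K))) (ht := Bad_finite _ _)
    · rintro ⟨x, y⟩ ⟨hx, hy⟩
      have hx' : tr x = a + a⁻¹ := hx
      have hxv : (x : M2 K).mulVec (v x) = a • v x := hv' x hx'
      have hyv : (y : M2 K).mulVec (v x) = b • v x := hy
      have hyt : tr y = b + b⁻¹ := (tbo_eig y b hb0).1 ⟨v x, hv x, hyv⟩
      have hxyv : ((x * y : SL K) : M2 K).mulVec (v x) = (a * b) • v x := by
        rw [Matrix.SpecialLinearGroup.coe_mul, ← Matrix.mulVec_mulVec, hyv,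
          Matrix.mulVec_smul, hxv, smul_smul, mul_comm b]
      have hxyt : tr (x * y) = (a * b) + (a * b)⁻¹ :=
        (tbo_eig (x * y) (a * b) (mul_ne_zero ha0 hb0)).1 ⟨v x, hv x, hxyv⟩
      have hxB : x ∈ Bor (v x) (hv x) := ⟨a, hxv⟩
      have hyB : y ∈ Bor (v x) (hv x) := ⟨b, hyv⟩
      refine ⟨⟨?_, fun j => Fin.elim0 j, ?_⟩, ?_⟩
      · show [(x * y)⁻¹, x, y] ∈ Xs [m1, m2, m3] (⊤ : Subgroup (SL K))
        rw [cons_mem_Xs, cons_mem_Xs, cons_mem_Xs]
        refine ⟨Subgroup.mem_top _, ?_, Subgroup.mem_top _,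
          tbo_pow hJ x a m2 ha0 ha2 ham hx', Subgroup.mem_top _,
          tbo_pow hJ y b m3 hb0 hb2 hbm hyt, ?_⟩
        · exact tbo_pow hJ _ (a * b) m1 (mul_ne_zero ha0 hb0) hab2 habm (by rw [tr_inv, hxyt])
        · rw [Xs_nil]
          exact Set.mem_singleton _
      · show Sc [(x * y)⁻¹, x, y].prod
        have h3 : [(x * y)⁻¹, x, y].prod = 1 := by
          rw [List.prod_cons, List.prod_cons, List.prod_cons, List.prod_nil]
          group
        rw [h3]
        exact Sc_one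
      · intro h
        apply tbo_top (v x) (hv x)
        rw [eq_top_iff, ← h, gn_le_iff]
        refine ⟨?_, fun j => Fin.elim0 j, neg_one_mem_Bor _ _⟩
        intro z hz
        simp only [List.mem_cons, List.not_mem_nil, or_false] at hz
        rcases hz with rfl | rfl | rfl
        · exact inv_mem (mul_mem hxB hyB)
        · exact hxB
        · exact hyB
    · rintro ⟨x, y⟩ _ ⟨x', y'⟩ _ h
      simp only [Prod.mk.injEq, List.cons.injEq] at h
      rw [h.1.2.1, h.1.2.2.1]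
  have h3 := (hTRC K 1 (a + a⁻¹) one_ne_zero).2.2.1
  have h4 := h1.trans h2
  show Nat.card K ^ 3 ≤ 2 * (Bad .zero [m1, m2, m3] K).ncard
  obtain ⟨n, hn⟩ : ∃ n, n = {x : SL K | tr x = a + a⁻¹}.ncard := ⟨_, rfl⟩
  rw [← hn] at h3 h4
  have h5 : Nat.card K ^ 2 ≤ 2 * n := by nlinarith
  calc Nat.card K ^ 3 = Nat.card K ^ 2 * Nat.card K := by ring
    _ ≤ (2 * n) * Nat.card K := Nat.mul_le_mul_right _ h5
    _ = 2 * (n * Nat.card K) := by ring
    _ ≤ _ := Nat.mul_le_mul_left _ h4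

end Pool.FG.helper83
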