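import Pool.Agent.Work.MP_65e34f.Basic

/-!
# MP_65e34f_al : block TRC (helper83)
-/

namespace Pool.FG.helper83

open Matrix Pool.FG

section

variable {K : Type} [Field K] [Finite K]

/-- the matrices of given determinant and trace -/
def trcS (δ τ : K) : Set (M2 K) := {M : M2 K | M.det = δ ∧ M 0 0 + M 1 1 = τ}

omit [Finite K] in
lemma trcS_eq {δ τ : K} {M : M2 K} (h : M ∈ trcS δ τ) :
    M 0 1 * M 1 0 = M 0 0 * (τ - M 0 0) - δ ∧ M 1 1 = τ - M 0 0 := by
  obtain ⟨h1, h2⟩ := h
  rw [Matrix.det_fin_two] at h1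
  have h3 : M 1 1 = τ - M 0 0 := by linear_combination h2
  refine ⟨?_, h3⟩
  rw [h3] at h1
  linear_combination -h1

lemma trcS_lower (δ τ : K) : Nat.card K * (Nat.card K - 1) ≤ (trcS δ τ).ncard := by
  have h1 : ((Set.univ : Set K) ×ˢ ({0}ᶜ : Set K)).ncard ≤ (trcS δ τ).ncard := by
    apply Set.ncard_le_ncard_of_injOn
      (fun w : K × K => !![w.1, w.2; (w.1 * (τ - w.1) - δ) / w.2, τ - w.1])
    · rintro ⟨a, b⟩ hw
      have hb : b ≠ 0 := by simpa using hw
      refine ⟨?_, ?_⟩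
      · rw [Matrix.det_fin_two_of]
        field_simp
        ring
      · simp
    · rintro ⟨a, b⟩ _ ⟨a', b'⟩ _ h
      have e1 := congrArg (fun M : M2 K => M 0 0) h
      have e2 := congrArg (fun M : M2 K => M 0 1) h
      simp at e1 e2
      rw [e1, e2]
  rw [Set.ncard_prod, Set.ncard_univ, Set.ncard_compl, Set.ncard_singleton] at h1
  exact h1

lemma trcS_upper (δ τ : K) :
    (trcS δ τ).ncard ≤ Nat.card K * (Nat.card K - 1) + 2 * Nat.card K := by
  have hsub : trcS δ τ ⊆ {M | M ∈ trcS δ τ ∧ M 0 1 ≠ 0} ∪ {M | M ∈ trcS δ τ ∧ M 0 1 = 0} := by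
    intro M hM
    by_cases h : M 0 1 = 0
    · exact Or.inr ⟨hM, h⟩
    · exact Or.inl ⟨hM, h⟩
  refine (Set.ncard_le_ncard hsub (Set.toFinite _)).trans ((Set.ncard_union_le _ _).trans ?_)
  apply add_le_add
  · have h1 : {M | M ∈ trcS δ τ ∧ M 0 1 ≠ 0}.ncard ≤
        ((Set.univ : Set K) ×ˢ ({0}ᶜ : Set K)).ncard := by
      apply Set.ncard_le_ncard_of_injOn (fun M : M2 K => (M 0 0, M 0 1))
      · rintro M ⟨_, h⟩
        simpa using h
      · rintro M ⟨hM, hM0⟩ N ⟨hN, _⟩ h
        simp only [Prod.mk.injEq] at h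
        obtain ⟨e1, e2⟩ := h
        obtain ⟨a1, a2⟩ := trcS_eq hM
        obtain ⟨b1, b2⟩ := trcS_eq hN
        have e3 : M 1 0 = N 1 0 := by
          apply mul_left_cancel₀ hM0
          rw [a1, e2, b1, e1]
        ext i j
        fin_cases i <;> fin_cases j
        · exact e1
        · exact e2
        · exact e3
        · show M 1 1 = N 1 1
          rw [a2, b2, e1]
    rw [Set.ncard_prod, Set.ncard_univ, Set.ncard_compl, Set.ncard_singleton] at h1
    exact h1
  · have h2 : {a : K | a * (τ - a) = δ}.ncard ≤ 2 := by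
      by_cases hne : ({a : K | a * (τ - a) = δ}).Nonempty
      · obtain ⟨a0, ha0⟩ := hne
        have hs : {a : K | a * (τ - a) = δ} ⊆ {a0, τ - a0} := by
          intro a ha
          have ha' : a * (τ - a) = δ := ha
          have ha0' : a0 * (τ - a0) = δ := ha0
          have hz : (a - a0) * (a - (τ - a0)) = 0 := by linear_combination ha0' - ha'
          rcases mul_eq_zero.1 hz with h | h
          · left; exact sub_eq_zero.1 h
          · right; exact sub_eq_zero.1 h
        exact (Set.ncard_le_ncard hs (Set.toFinite _)).trans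
          ((Set.ncard_insert_le _ _).trans (by simp))
      · rw [Set.not_nonempty_iff_eq_empty.1 hne]
        simp
    have h3 : {M | M ∈ trcS δ τ ∧ M 0 1 = 0}.ncard ≤
        ({a : K | a * (τ - a) = δ} ×ˢ (Set.univ : Set K)).ncard := by
      apply Set.ncard_le_ncard_of_injOn (fun M : M2 K => (M 0 0, M 1 0))
      · rintro M ⟨hM, h⟩
        obtain ⟨a1, _⟩ := trcS_eq hM
        rw [h, zero_mul] at a1
        refine ⟨?_, Set.mem_univ _⟩
        show M 0 0 * (τ - M 0 0) = δ
        linear_combination -a1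
      · rintro M ⟨hM, hM0⟩ N ⟨hN, hN0⟩ h
        simp only [Prod.mk.injEq] at h
        obtain ⟨e1, e2⟩ := h
        obtain ⟨_, a2⟩ := trcS_eq hM
        obtain ⟨_, b2⟩ := trcS_eq hN
        ext i j
        fin_cases i <;> fin_cases j
        · exact e1
        · show M 0 1 = N 0 1
          rw [hM0, hN0]
        · exact e2
        · show M 1 1 = N 1 1
          rw [a2, b2, e1]
    rw [Set.ncard_prod, Set.ncard_univ] at h3
    exact h3.trans (Nat.mul_le_mul_right _ h2)

omit [Finite K] in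
lemma trcSL_eq (τ : K) : {x : SL K | tr x = τ}.ncard = (trcS (1 : K) τ).ncard := by
  have h1 : (fun x : SL K => (x : M2 K)) '' {x : SL K | tr x = τ} = trcS (1 : K) τ := by
    ext M
    constructor
    · rintro ⟨x, hx, rfl⟩
      exact ⟨x.2, hx⟩
    · rintro ⟨h1, h2⟩
      exact ⟨⟨M, h1⟩, h2, rfl⟩
  rw [← h1, Set.ncard_image_of_injective]
  exact Subtype.val_injective

end

theorem stmt_TRC : Stmt_TRC := by
  intro K _ _ δ τ _
  have hq := two_le_card (K := K)
  have hkey : ∀ δ' : K, Nat.card K ^ 2 ≤ (trcS δ' τ).ncard + Nat.card K ∧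
      (trcS δ' τ).ncard ≤ Nat.card K ^ 2 + Nat.card K := by
    intro δ'
    have h1 := trcS_lower δ' τ
    have h2 := trcS_upper δ' τ
    obtain ⟨m, hm⟩ : ∃ m, Nat.card K = m + 1 := ⟨Nat.card K - 1, by omega⟩
    rw [hm] at h1 h2 ⊢
    rw [Nat.add_sub_cancel] at h1 h2
    constructor
    · nlinarith
    · nlinarith
  obtain ⟨a1, a2⟩ := hkey δ
  obtain ⟨b1, b2⟩ := hkey 1
  rw [← trcSL_eq] at b1 b2
  exact ⟨a1, a2, b1, b2⟩

end Pool.FG.helper83
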