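import Pool.Agent.Work.MP_65e34f.Basic

/-!
# MP_65e34f_al : block PRT (helper83)
-/

namespace Pool.FG.helper83

open Matrix Pool.FG

lemma prt_T (hTRC : Stmt_TRC) (hT : Stmt_TWO) (K : Type) [Field K] [Finite K] (a : SL K)
    (ha : ¬ Sc a) (τ : K) (S : Set K) (hS : S.ncard ≤ 6) :
    Nat.card K ^ 2 ≤ {x : SL K | tr x = τ ∧ tr (a * x) ∉ S}.ncard + 13 * Nat.card K := by
  have h1 := (hTRC K 1 τ one_ne_zero).2.2.1
  have h2 : {x : SL K | tr x = τ} ⊆ {x : SL K | tr x = τ ∧ tr (a * x) ∉ S} ∪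
      {x : SL K | tr x = τ ∧ tr (a * x) ∈ S} := by
    intro x hx
    by_cases h : tr (a * x) ∈ S
    · exact Or.inr ⟨hx, h⟩
    · exact Or.inl ⟨hx, h⟩
  have h3 := (Set.ncard_le_ncard h2 (Set.toFinite _)).trans (Set.ncard_union_le _ _)
  have h4 : {x : SL K | tr x = τ ∧ tr (a * x) ∈ S}.ncard ≤ S.ncard * (2 * Nat.card K) := by
    apply ncard_le_mul_of_fiber (Set.toFinite _) (Set.toFinite _) (fun x => tr (a * x))
      (fun x hx => hx.2)
    intro t _
    have h5 := (hT K a ha τ t).1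
    have h6 : {x | x ∈ {x : SL K | tr x = τ ∧ tr (a * x) ∈ S} ∧ tr (a * x) = t} ⊆
        {x : SL K | tr x = τ ∧ tr (a * x) = t} := fun x hx => ⟨hx.1.1, hx.2⟩
    exact (Set.ncard_le_ncard h6 (Set.toFinite _)).trans h5
  have h7 : S.ncard * (2 * Nat.card K) ≤ 6 * (2 * Nat.card K) := Nat.mul_le_mul_right _ hS
  omega

theorem stmt_PRT (hTRC : Stmt_TRC) (hT : Stmt_TWO) (hJ : Stmt_CNJ) (hPRO : Stmt_PRO) :
    Stmt_PRT := by
  intro ds hlen hds
  rcases ds with _ | ⟨m, ds'⟩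
  · simp at hlen
  · have hne : ds' ≠ [] := by
      rintro rfl
      simp at hlen
    obtain ⟨C2, N2, h2⟩ := hPRO ds' hne (fun k hk => hds k (by simp [hk]))
    refine ⟨C2 * 2, N2 + 26, ?_⟩
    intro K _ _ hN hliv S hS
    have h3 := h2 K (by omega) (fun k hk => hliv k (by simp [hk]))
    obtain ⟨x0, hx0, hx0'⟩ := hliv m (by simp)
    obtain ⟨Y, hY⟩ : ∃ Y, Y = {xs | xs ∈ Xs ds' (⊤ : Subgroup (SL K)) ∧ ¬ Sc xs.prod} :=
      ⟨_, rfl⟩
    rw [← hY] at h3
    have hYf : Y.Finite := by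
      rw [hY]
      exact (Xs_finite ds' ⊤).subset fun xs hxs => hxs.1
    obtain ⟨S', hS'⟩ : ∃ S', S' = S ∪ {2, -2} := ⟨_, rfl⟩
    have hS'6 : S'.ncard ≤ 6 := by
      rw [hS']
      have h4 : ({2, -2} : Set K).ncard ≤ 2 := (Set.ncard_insert_le _ _).trans (by simp)
      have h5 := Set.ncard_union_le S {2, -2}
      omega
    have h5 : Y.ncard * (Nat.card K ^ 2 - 13 * Nat.card K) ≤
        Set.ncard {t : List (SL K) × SL K | t.1 ∈ Y ∧
          t.2 ∈ {x : SL K | tr x = tr x0 ∧ tr (t.1.prod * x) ∉ S'}} := by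
      apply le_ncard_prod hYf (fun ys => {x : SL K | tr x = tr x0 ∧ tr (ys.prod * x) ∉ S'})
        (fun _ _ => Set.toFinite _)
      intro ys hys
      rw [hY] at hys
      have h6 := prt_T hTRC hT K ys.prod hys.2 (tr x0) S' hS'6
      omega
    have hfin : {xs | xs ∈ Xs (m :: ds') (⊤ : Subgroup (SL K)) ∧ ¬ Sc xs.prod ∧
        tr xs.prod ∉ S}.Finite := (Xs_finite (m :: ds') ⊤).subset fun xs hxs => hxs.1
    have h6 : Set.ncard {t : List (SL K) × SL K | t.1 ∈ Y ∧
          t.2 ∈ {x : SL K | tr x = tr x0 ∧ tr (t.1.prod * x) ∉ S'}} ≤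
        Set.ncard {xs | xs ∈ Xs (m :: ds') (⊤ : Subgroup (SL K)) ∧ ¬ Sc xs.prod ∧
          tr xs.prod ∉ S} := by
      apply Set.ncard_le_ncard_of_injOn (fun t : List (SL K) × SL K => t.2 :: t.1) (ht := hfin)
      · rintro ⟨ys, x⟩ ⟨hys, hx, hyx⟩
        have hys' : ys ∈ Xs ds' (⊤ : Subgroup (SL K)) := by
          have h7 : ys ∈ Y := hys
          rw [hY] at h7
          exact h7.1
        have htr : tr (x * ys.prod) ∉ S' := by
          rw [tr_mul_comm]
          exact hyx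
        rw [hS'] at htr
        refine ⟨?_, ?_, ?_⟩
        · show x :: ys ∈ Xs (m :: ds') (⊤ : Subgroup (SL K))
          rw [cons_mem_Xs]
          exact ⟨Subgroup.mem_top _, (hJ K).2 x0 x m hx0 hx0' hx, hys'⟩
        · show ¬ Sc (x :: ys).prod
          rw [List.prod_cons]
          intro h
          apply htr
          right
          rcases h.tr_eq with e | e
          · left; exact e
          · right; exact e
        · show tr (x :: ys).prod ∉ S
          rw [List.prod_cons]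
          intro h
          exact htr (Or.inl h)
      · rintro ⟨ys, x⟩ _ ⟨ys', x'⟩ _ h
        simp only [List.cons.injEq] at h
        rw [h.1, h.2]
    have h7 := h5.trans h6
    have h8 : Nat.card K ^ 2 ≤ 2 * (Nat.card K ^ 2 - 13 * Nat.card K) := by
      have h9 : 26 * Nat.card K ≤ Nat.card K ^ 2 := by nlinarith
      omega
    calc Nat.card K ^ (2 * (m :: ds').length) = Nat.card K ^ (2 * ds'.length) * Nat.card K ^ 2 := by
          rw [List.length_cons, mul_add, pow_add]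
      _ ≤ (C2 * Y.ncard) * (2 * (Nat.card K ^ 2 - 13 * Nat.card K)) := Nat.mul_le_mul h3 h8
      _ = C2 * 2 * (Y.ncard * (Nat.card K ^ 2 - 13 * Nat.card K)) := by ring
      _ ≤ _ := Nat.mul_le_mul_left _ h7

end Pool.FG.helper83
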